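import Mathlib
import Pool.Agent.H710R2.DP.Defs
import Pool.Agent.H710R2.DP.Defs2
import Pool.Agent.H710R2.DP.Tasks

open scoped ComplexOrder InnerProductSpace ComplexConjugate
open Finset

noncomputable section

namespace H710R2.DP

open H759R2.Kad

namespace ZZ3

section mon

variable {R : Type*} [CommMonoid R] {ι : Type*} [Fintype ι] [DecidableEq ι]

/-- product over a set of indices -/
def us (s : ι → R) (S : Finset ι) : R := ∏ i ∈ S, s i

theorem us_sq (s : ι → R) (hs : ∀ i, s i * s i = 1) (S : Finset ι) : us s S * us s S = 1 := by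
  unfold us
  rw [← Finset.prod_mul_distrib]
  exact Finset.prod_eq_one (fun i _ => hs i)

/-- flipping membership of `q` -/
def flp (q : ι) (S : Finset ι) : Finset ι := if q ∈ S then S.erase q else insert q S

theorem flp_inv (q : ι) : Function.Involutive (flp q : Finset ι → Finset ι) := by
  intro S
  unfold flp
  by_cases h : q ∈ S
  · rw [if_pos h, if_neg (Finset.notMem_erase q S), Finset.insert_erase h]
  · rw [if_neg h, if_pos (Finset.mem_insert_self q S), Finset.erase_insert h]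

theorem us_flp (s : ι → R) (hs : ∀ i, s i * s i = 1) (q : ι) (S : Finset ι) :
    us s (flp q S) = s q * us s S := by
  unfold us flp
  by_cases h : q ∈ S
  · rw [if_pos h, ← Finset.mul_prod_erase S s h, ← mul_assoc, hs, one_mul]
  · rw [if_neg h, Finset.prod_insert h]

end mon

section op

variable {H : Type} [NormedAddCommGroup H] [InnerProductSpace ℂ H] [CompleteSpace H]

theorem norm_one_le : ‖(1 : H →L[ℂ] H)‖ ≤ 1 := ContinuousLinearMap.norm_id_le

theorem sy_sq {p : H →L[ℂ] H} (hp : IsPr p) : (2 * p - 1) * (2 * p - 1) = 1 := by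
  have h : p * p = p := hp.2
  have h2 : (2 * p - 1) * (2 * p - 1) = 4 * (p * p) - 4 * p + 1 := by noncomm_ring
  rw [h2, h]; noncomm_ring

theorem sy_star {p : H →L[ℂ] H} (hp : IsPr p) : star (2 * p - 1) = 2 * p - 1 := by
  have h : star p = p := hp.1
  have h2 : (2 * p - 1 : H →L[ℂ] H) = p + p - 1 := by noncomm_ring
  rw [h2, star_sub, star_add, h, star_one]

theorem sy_norm {p : H →L[ℂ] H} (hp : IsPr p) : ‖2 * p - 1‖ ≤ 1 := by
  have h := CStarRing.norm_star_mul_self (x := 2 * p - 1)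
  rw [sy_star hp, sy_sq hp] at h
  have h1 := norm_one_le (H := H)
  have h0 := norm_nonneg (2 * p - 1)
  nlinarith [h, h1, h0]

end op

end ZZ3

open ZZ3 in
theorem dp_fin : Z_fin := by
  classical
  intro H _ _ _ M E d hd hE P hP
  -- the algebra and its centre
  let A := M.toStarSubalgebra
  let ι := {x // x ∈ P}
  have hmem : ∀ i : ι, (i : H →L[ℂ] H) ∈ A := fun i => (hP i i.2).2.1
  let pA : ι → A := fun i => ⟨(i : H →L[ℂ] H), hmem i⟩
  let sA : ι → A := fun i => 2 * pA i - 1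
  have hco : ∀ i : ι, ((sA i : A) : H →L[ℂ] H) = 2 * (i : H →L[ℂ] H) - 1 := by
    intro i
    show ((2 * pA i - 1 : A) : H →L[ℂ] H) = _
    rfl
  have hcp : ∀ (i : ι) (a : A), a * pA i = pA i * a := by
    intro i a
    apply Subtype.ext
    exact ((hP i i.2).2.2 (a : H →L[ℂ] H) a.2).symm
  have hcen : ∀ i : ι, sA i ∈ Submonoid.center A := by
    intro i
    rw [Submonoid.mem_center_iff]
    intro a
    show a * (2 * pA i - 1) = (2 * pA i - 1) * a
    have h1 : a * (2 * pA i - 1) = 2 * (a * pA i) - a := by noncomm_ring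
    have h2 : (2 * pA i - 1) * a = 2 * (pA i * a) - a := by noncomm_ring
    rw [h1, h2, hcp i a]
  let s : ι → Submonoid.center A := fun i => ⟨sA i, hcen i⟩
  have hsA : ∀ i, sA i * sA i = 1 := by
    intro i
    apply Subtype.ext
    show ((sA i : A) : H →L[ℂ] H) * ((sA i : A) : H →L[ℂ] H) = 1
    rw [hco i]
    exact sy_sq (hP i i.2).1
  have hs : ∀ i, s i * s i = 1 := fun i => Subtype.ext (hsA i)
  -- the unitaries
  let v : Finset ι → A := fun S => ((us s S : Submonoid.center A) : A)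
  have v_sq : ∀ S, v S * v S = 1 := by
    intro S
    have := congrArg (fun z : Submonoid.center A => (z : A)) (us_sq s hs S)
    exact this
  have v_flp : ∀ q S, v (flp q S) = sA q * v S := by
    intro q S
    have := congrArg (fun z : Submonoid.center A => (z : A)) (us_flp s hs q S)
    exact this
  have v_cen : ∀ S (a : A), a * v S = v S * a := by
    intro S a
    exact (Submonoid.mem_center_iff.1 (us s S).2) a
  have v_norm : ∀ S, ‖((v S : A) : H →L[ℂ] H)‖ ≤ 1 := by
    intro S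
    show ‖(((us s S : Submonoid.center A) : A) : H →L[ℂ] H)‖ ≤ 1
    unfold us
    apply Finset.prod_induction s (fun z : Submonoid.center A => ‖((z : A) : H →L[ℂ] H)‖ ≤ 1)
    · intro a b ha hb
      show ‖((a : A) : H →L[ℂ] H) * ((b : A) : H →L[ℂ] H)‖ ≤ 1
      calc ‖((a : A) : H →L[ℂ] H) * ((b : A) : H →L[ℂ] H)‖
          ≤ ‖((a : A) : H →L[ℂ] H)‖ * ‖((b : A) : H →L[ℂ] H)‖ := norm_mul_le _ _
        _ ≤ 1 * 1 := mul_le_mul ha hb (norm_nonneg _) zero_le_one
        _ = 1 := one_mul 1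
    · exact norm_one_le
    · intro i _
      show ‖((sA i : A) : H →L[ℂ] H)‖ ≤ 1
      rw [hco i]
      exact sy_norm (hP i i.2).1
  have E_norm : ∀ S, ‖E (v S)‖ ≤ d := by
    intro S
    calc ‖E (v S)‖ ≤ d * ‖v S‖ := hE.bound _
      _ ≤ d * 1 := mul_le_mul_of_nonneg_left (v_norm S) hd
      _ = d := mul_one d
  have leib : ∀ a b : A, E (a * b) = (a : H →L[ℂ] H) * E b + E a * (b : H →L[ℂ] H) :=
    fun a b => hE.leib a b
  have E_one : E 1 = 0 := by
    have h := leib 1 1
    have h1 : (((1 : A)) : H →L[ℂ] H) = 1 := rfl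
    rw [mul_one, h1, one_mul, mul_one] at h
    exact left_eq_add.1 h
  obtain ⟨N, hN⟩ : ∃ N : ℕ, N = Fintype.card (Finset ι) := ⟨_, rfl⟩
  have hN0 : (N : ℂ) ≠ 0 := by
    rw [hN]; exact_mod_cast Fintype.card_ne_zero
  let T : H →L[ℂ] H := (N : ℂ)⁻¹ • ∑ S : Finset ι, E (v S) * ((v S : A) : H →L[ℂ] H)
  have key : ∀ q : ι, T * ((sA q : A) : H →L[ℂ] H) = ((sA q : A) : H →L[ℂ] H) * T + E (sA q) := by
    intro q
    have h1 : ∑ S : Finset ι, E (v S) * ((v S : A) : H →L[ℂ] H) =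
        ∑ S : Finset ι, E (v (flp q S)) * ((v (flp q S) : A) : H →L[ℂ] H) :=
      (Equiv.sum_comp (flp_inv q).toPerm
        (fun S => E (v S) * ((v S : A) : H →L[ℂ] H))).symm
    have h2 : ∀ S : Finset ι,
        E (v (flp q S)) * ((v (flp q S) : A) : H →L[ℂ] H) * ((sA q : A) : H →L[ℂ] H) =
        ((sA q : A) : H →L[ℂ] H) * (E (v S) * ((v S : A) : H →L[ℂ] H)) + E (sA q) := by
      intro S
      have e1 : ((v (flp q S) : A) : H →L[ℂ] H) * ((sA q : A) : H →L[ℂ] H) =
          ((v S : A) : H →L[ℂ] H) := by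
        have : v (flp q S) * sA q = v S := by
          rw [v_flp, mul_assoc, ← v_cen S (sA q), ← mul_assoc, hsA, one_mul]
        exact congrArg (fun z : A => (z : H →L[ℂ] H)) this
      have e2 : ((v S : A) : H →L[ℂ] H) * ((v S : A) : H →L[ℂ] H) = 1 :=
        congrArg (fun z : A => (z : H →L[ℂ] H)) (v_sq S)
      rw [mul_assoc, e1, v_flp, leib, add_mul, mul_assoc, mul_assoc (E (sA q)), e2, mul_one]
    show ((N : ℂ)⁻¹ • ∑ S : Finset ι, E (v S) * ((v S : A) : H →L[ℂ] H)) *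
        ((sA q : A) : H →L[ℂ] H) = ((sA q : A) : H →L[ℂ] H) *
        ((N : ℂ)⁻¹ • ∑ S : Finset ι, E (v S) * ((v S : A) : H →L[ℂ] H)) + E (sA q)
    rw [smul_mul_assoc, mul_smul_comm]
    conv_lhs => rw [h1, Finset.sum_mul, Finset.sum_congr rfl (fun S _ => h2 S),
      Finset.sum_add_distrib, Finset.sum_const, Finset.card_univ, ← hN, smul_add,
      ← Finset.mul_sum]
    congr 1
    rw [← Nat.cast_smul_eq_nsmul ℂ, smul_smul, inv_mul_cancel₀ hN0, one_smul]
  refine ⟨T, ?_, ?_⟩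
  · show ‖(N : ℂ)⁻¹ • ∑ S : Finset ι, E (v S) * ((v S : A) : H →L[ℂ] H)‖ ≤ d
    have h1 : ‖∑ S : Finset ι, E (v S) * ((v S : A) : H →L[ℂ] H)‖ ≤ N * d := by
      calc ‖∑ S : Finset ι, E (v S) * ((v S : A) : H →L[ℂ] H)‖
          ≤ ∑ S : Finset ι, ‖E (v S) * ((v S : A) : H →L[ℂ] H)‖ := norm_sum_le _ _
        _ ≤ ∑ _S : Finset ι, d := by
            apply Finset.sum_le_sum
            intro S _
            calc ‖E (v S) * ((v S : A) : H →L[ℂ] H)‖
                ≤ ‖E (v S)‖ * ‖((v S : A) : H →L[ℂ] H)‖ := norm_mul_le _ _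
              _ ≤ d * 1 := mul_le_mul (E_norm S) (v_norm S) (norm_nonneg _) hd
              _ = d := mul_one d
        _ = N * d := by rw [Finset.sum_const, Finset.card_univ, ← hN, nsmul_eq_mul]
    have hNr : (0 : ℝ) < N := by
      have : 0 < N := by rw [hN]; exact Fintype.card_pos
      exact_mod_cast this
    rw [norm_smul, norm_inv, Complex.norm_natCast, inv_mul_le_iff₀ hNr]
    exact h1
  · intro x hx
    have hq := key ⟨(x : H →L[ℂ] H), hx⟩
    have hpx : pA ⟨(x : H →L[ℂ] H), hx⟩ = x := Subtype.ext rfl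
    have hsx : sA ⟨(x : H →L[ℂ] H), hx⟩ = x + x - 1 := by
      show 2 * pA ⟨(x : H →L[ℂ] H), hx⟩ - 1 = _
      rw [hpx]; noncomm_ring
    rw [hsx, map_sub, map_add, E_one, sub_zero] at hq
    have hc : (((x + x - 1 : A)) : H →L[ℂ] H) = (x : H →L[ℂ] H) + (x : H →L[ℂ] H) - 1 := rfl
    rw [hc] at hq
    have h3 : E x + E x = (T * (x : H →L[ℂ] H) - (x : H →L[ℂ] H) * T) +
        (T * (x : H →L[ℂ] H) - (x : H →L[ℂ] H) * T) := by
      have h4 : E x + E x = T * ((x : H →L[ℂ] H) + (x : H →L[ℂ] H) - 1) -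
          ((x : H →L[ℂ] H) + (x : H →L[ℂ] H) - 1) * T := by
        rw [hq]; abel
      rw [h4]; noncomm_ring
    have h5 : (2 : ℂ) • E x = (2 : ℂ) • (T * (x : H →L[ℂ] H) - (x : H →L[ℂ] H) * T) := by
      rw [two_smul, two_smul]; exact h3
    exact smul_right_injective _ (two_ne_zero) h5

end H710R2.DP
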